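import Pool.Agent.LeoK.CountStmts

/-!
Squad leok, module PRC: residue classes of pairs primitive at the primes of `Q`.
-/

set_option autoImplicit false

open NumberField IsDedekindDomain Module

namespace Pool.Agent.LeoK.H67

theorem ncard_ne_zero {k : Type} [Field k] [NumberField k] (p : HeightOneSpectrum (𝓞 k)) :
    (({c : Fin 2 → 𝓞 k ⧸ p.asIdeal | c ≠ 0}).ncard : ℝ) = np p ^ 2 * (1 - 1 / np p ^ 2) ∧
      0 < np p := by
  have hfin : Finite (𝓞 k ⧸ p.asIdeal) := Ideal.finiteQuotientOfFreeOfNeBot _ p.ne_bot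
  have hnp : np p = (Nat.card (𝓞 k ⧸ p.asIdeal) : ℝ) := by
    rw [np, Ideal.absNorm_apply]
    rfl
  have hpos : 0 < Nat.card (𝓞 k ⧸ p.asIdeal) := Nat.card_pos
  have hpos' : (0 : ℝ) < np p := by
    rw [hnp]
    exact_mod_cast hpos
  refine ⟨?_, hpos'⟩
  have h1 : ({c : Fin 2 → 𝓞 k ⧸ p.asIdeal | c ≠ 0}).ncard + 1 =
      Nat.card (𝓞 k ⧸ p.asIdeal) ^ 2 := by
    have h2 : ({c : Fin 2 → 𝓞 k ⧸ p.asIdeal | c ≠ 0}) = ({0} : Set (Fin 2 → 𝓞 k ⧸ p.asIdeal))ᶜ := by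
      ext c
      simp
    have h3 := Set.ncard_add_ncard_compl ({0} : Set (Fin 2 → 𝓞 k ⧸ p.asIdeal))
    rw [Set.ncard_singleton, Nat.card_fun, Nat.card_fin] at h3
    rw [h2, add_comm]
    exact h3
  have h4 : (({c : Fin 2 → 𝓞 k ⧸ p.asIdeal | c ≠ 0}).ncard : ℝ) + 1 = np p ^ 2 := by
    rw [hnp]
    exact_mod_cast h1
  have h5 : np p ^ 2 * (1 - 1 / np p ^ 2) = np p ^ 2 - 1 := by
    field_simp
  rw [h5]
  linarith

theorem prc_aux (hres : ResStmt) (k : Type) [Field k] [NumberField k]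
    (Q : Finset (HeightOneSpectrum (𝓞 k))) (J : Ideal (𝓞 k))
    (hJ : J = ∏ i : Q, (i : HeightOneSpectrum (𝓞 k)).asIdeal) :
    ∃ S : Set ((𝓞 k ⧸ J) × (𝓞 k ⧸ J)),
      (∀ X Y : 𝓞 k, (Ideal.Quotient.mk J X, Ideal.Quotient.mk J Y) ∈ S →
        ∀ p ∈ Q, ¬ (X ∈ p.asIdeal ∧ Y ∈ p.asIdeal)) ∧
      (∏ p ∈ Q, (1 - 1 / np p ^ 2)) * (Ideal.absNorm J : ℝ) ^ 2 ≤ (S.ncard : ℝ) := by
  subst hJ
  have hcop : ∀ i j : Q, i ≠ j → IsCoprime (i : HeightOneSpectrum (𝓞 k)).asIdeal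
      (j : HeightOneSpectrum (𝓞 k)).asIdeal := by
    intro i j hij
    have hi := (i : HeightOneSpectrum (𝓞 k)).isMaximal
    have hj := (j : HeightOneSpectrum (𝓞 k)).isMaximal
    rw [Ideal.isCoprime_iff_sup_eq]
    apply hi.coprime_of_ne hj
    intro h
    exact hij (Subtype.ext (HeightOneSpectrum.ext h))
  obtain ⟨T, hT1, hT2⟩ := hres (𝓞 k) Q (Fin 2) (fun i => (i : HeightOneSpectrum (𝓞 k)).asIdeal) hcop
    (fun i => {c | c ≠ 0})
  refine ⟨{c | ![c.1, c.2] ∈ T}, ?_, ?_⟩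
  · rintro X Y hXY p hp ⟨hX, hY⟩
    have h1 : (fun a : Fin 2 => Ideal.Quotient.mk (∏ i : Q, (i : HeightOneSpectrum (𝓞 k)).asIdeal)
        (![X, Y] a)) ∈ T := by
      have h2 : (fun a : Fin 2 => Ideal.Quotient.mk (∏ i : Q, (i : HeightOneSpectrum (𝓞 k)).asIdeal)
          (![X, Y] a)) = ![Ideal.Quotient.mk _ X, Ideal.Quotient.mk _ Y] := by
        funext a
        fin_cases a <;> rfl
      rw [h2]
      exact hXY
    have h3 := (hT1 ![X, Y]).1 h1 ⟨p, hp⟩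
    apply h3
    funext a
    fin_cases a
    · exact Ideal.Quotient.eq_zero_iff_mem.2 hX
    · exact Ideal.Quotient.eq_zero_iff_mem.2 hY
  · have h1 : ({c : (𝓞 k ⧸ ∏ i : Q, (i : HeightOneSpectrum (𝓞 k)).asIdeal) ×
        (𝓞 k ⧸ ∏ i : Q, (i : HeightOneSpectrum (𝓞 k)).asIdeal) | ![c.1, c.2] ∈ T}).ncard =
        T.ncard := by
      apply Set.ncard_congr (fun c _ => ![c.1, c.2])
      · intro c hc
        exact hc
      · rintro ⟨a, b⟩ ⟨a', b'⟩ _ _ h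
        have e0 := congrFun h 0
        have e1 := congrFun h 1
        exact Prod.ext e0 e1
      · intro c hc
        refine ⟨(c 0, c 1), ?_, ?_⟩
        · show ![c 0, c 1] ∈ T
          have : ![c 0, c 1] = c := by
            funext a
            fin_cases a <;> rfl
          rw [this]
          exact hc
        · funext a
          fin_cases a <;> rfl
    rw [h1, hT2, map_prod]
    push_cast
    have h2 : ∀ i : Q, (({c : Fin 2 → 𝓞 k ⧸ (i : HeightOneSpectrum (𝓞 k)).asIdeal | c ≠ 0}).ncard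
        : ℝ) = np (i : HeightOneSpectrum (𝓞 k)) ^ 2 *
          (1 - 1 / np (i : HeightOneSpectrum (𝓞 k)) ^ 2) := fun i => (ncard_ne_zero _).1
    rw [Finset.prod_congr rfl (fun i _ => h2 i), Finset.prod_mul_distrib,
      ← Finset.prod_coe_sort Q (fun p => 1 - 1 / np p ^ 2), ← Finset.prod_pow]
    apply le_of_eq
    rw [mul_comm]
    rfl

theorem prc (hres : ResStmt) : PrcStmt := by
  intro k _ _ Q
  exact prc_aux hres k Q _ (Finset.prod_coe_sort Q (fun p => p.asIdeal)).symm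

end Pool.Agent.LeoK.H67
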