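import Pool.Agent.Helper60_Leo3.RefA
import Pool.Agent.Helper85_Leo.Units
import Pool.Agent.LeoK.StrStmts

/-!
Squad leok, module UNR: the unramified cyclic cubic extension of `k(√-m)`.
-/

set_option autoImplicit false

open NumberField IsDedekindDomain WithZero Module Polynomial
open Pool.Agent.Helper85_Leo
open Pool.Agent.Leo3 (Om InLoc FixF)
open Pool.Agent.Leo3.H60 (gq gq_eval gq_map gq_deg gq_monic gq_irr exists_root_field)

namespace Pool.Agent.LeoK.H67

/-- No root in a quadratic extension. -/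
lemma gq_noroot {k F : Type} [Field k] [Field F] [Algebra k F] (hF : finrank k F = 2) {t : k}
    (h : ∀ x : k, x ^ 3 - 3 * x - t ≠ 0) (y : F) : y ^ 3 - 3 * y - algebraMap k F t ≠ 0 := by
  intro hy
  have : FiniteDimensional k F := Module.finite_of_finrank_pos (by omega)
  have h1 : aeval y (gq k t) = 0 := by
    rw [aeval_def, ← eval_map, gq_map, gq_eval]
    exact hy
  have h2 := minpoly.eq_of_irreducible_of_monic (gq_irr h) h1 (gq_monic t)
  have hint : IsIntegral k y := Algebra.IsIntegral.isIntegral y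
  have h3 := minpoly.degree_dvd hint
  rw [← h2, gq_deg, hF] at h3
  omega

/-- The cubic extension is Galois. -/
lemma gq_galois {F L : Type} [Field F] [CharZero F] [Field L] [Algebra F L]
    {t : F} {θ δ : L} (hδ2 : δ ^ 2 = 12 - 3 * θ ^ 2)
    (hθ : θ ^ 3 - 3 * θ - algebraMap F L t = 0)
    (htop : Algebra.adjoin F ({θ} : Set L) = ⊤) : IsGalois F L := by
  have : CharZero L := charZero_of_injective_algebraMap (algebraMap F L).injective
  have e1 : (2 : L) ≠ 0 := two_ne_zero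
  have hfac : (gq F t).map (algebraMap F L) =
      (X - C θ) * (X - C ((-θ + δ) / 2)) * (X - C ((-θ - δ) / 2)) := by
    have e3 : (X - C θ) * (X - C ((-θ + δ) / 2)) * (X - C ((-θ - δ) / 2)) =
        X ^ 3 - C (θ + (-θ + δ) / 2 + (-θ - δ) / 2) * X ^ 2 +
        C (θ * ((-θ + δ) / 2) + θ * ((-θ - δ) / 2) + ((-θ + δ) / 2) * ((-θ - δ) / 2)) * X -
        C (θ * ((-θ + δ) / 2) * ((-θ - δ) / 2)) := by
      simp only [C_mul, C_add]
      ring
    have e4 : θ + (-θ + δ) / 2 + (-θ - δ) / 2 = 0 := by ring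
    have e5 : θ * ((-θ + δ) / 2) + θ * ((-θ - δ) / 2) + ((-θ + δ) / 2) * ((-θ - δ) / 2) = -3 := by
      linear_combination (-1 / 4 : L) * hδ2
    have e6 : θ * ((-θ + δ) / 2) * ((-θ - δ) / 2) = algebraMap F L t := by
      linear_combination (-θ / 4 : L) * hδ2 + hθ
    rw [e3, e4, e5, e6, gq_map]
    unfold gq
    rw [C_0, C_neg]
    ring
  have hspl : ((gq F t).map (algebraMap F L)).Splits := by
    rw [hfac]
    exact ((Splits.X_sub_C _).mul (Splits.X_sub_C _)).mul (Splits.X_sub_C _)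
  have hroot : θ ∈ (gq F t).rootSet L := by
    rw [mem_rootSet]
    refine ⟨(gq_monic _).ne_zero, ?_⟩
    rw [aeval_def, ← eval_map, gq_map, gq_eval, hθ]
  have : IsSplittingField F L (gq F t) := by
    refine ⟨hspl, ?_⟩
    rw [eq_top_iff, ← htop]
    exact Algebra.adjoin_mono (Set.singleton_subset_iff.2 hroot)
  have : Normal F L := Normal.of_isSplittingField (gq F t)
  exact ⟨⟩

section val

variable {L : Type} [Field L] [NumberField L]

lemma lz (Q : HeightOneSpectrum (𝓞 L)) (x : L) (h : Q.valuation L x ≤ 1) :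
    ∃ a b : 𝓞 L, b ∉ Q.asIdeal ∧ x * (b : L) = a := by
  obtain ⟨n, d, hnd⟩ := Q.exists_primeCompl_mul_eq_of_integer x h
  exact ⟨n, d, d.2, hnd⟩

lemma val_one (Q : HeightOneSpectrum (𝓞 L)) {b : 𝓞 L} (hb : b ∉ Q.asIdeal) :
    Q.valuation L (b : L) = 1 := Q.valuation_eq_one_iff_notMem.2 hb

lemma val_le (Q : HeightOneSpectrum (𝓞 L)) (b : 𝓞 L) : Q.valuation L (b : L) ≤ 1 :=
  Q.valuation_le_one b

lemma val_lt (Q : HeightOneSpectrum (𝓞 L)) {b : 𝓞 L} (hb : b ∈ Q.asIdeal) :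
    Q.valuation L (b : L) < 1 := (Q.valuation_lt_one_iff_mem b).2 hb

/-- `σ x - x` is in the maximal ideal. -/
lemma val_sub {F : Type} [Field F] [NumberField F] [Algebra F L] (Q : HeightOneSpectrum (𝓞 L))
    (σ : L ≃ₐ[F] L)
    (hin : ∀ y : 𝓞 L, σ • y - y ∈ Q.asIdeal) (x : L) (h : Q.valuation L x ≤ 1) :
    Q.valuation L (σ x - x) < 1 := by
  obtain ⟨a, b, hb, hab⟩ := lz Q x h
  have hsm : ∀ y : 𝓞 L, ((σ • y : 𝓞 L) : L) = σ (y : L) := fun y => rfl
  have hsb : σ • b ∉ Q.asIdeal := by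
    intro h1
    apply hb
    have h2 := Q.asIdeal.sub_mem h1 (hin b)
    rwa [sub_sub_cancel] at h2
  have h1 : (σ x - x) * ((b : L) * (σ • b : 𝓞 L)) =
      (((σ • a - a) * b - a * (σ • b - b) : 𝓞 L) : L) := by
    have h2 : σ x * σ (b : L) = σ (a : L) := by rw [← map_mul, hab]
    simp only [map_sub, map_mul, hsm]
    linear_combination (b : L) * h2 - σ (b : L) * hab
  have h2 : (σ • a - a) * b - a * (σ • b - b) ∈ Q.asIdeal :=
    Q.asIdeal.sub_mem (Q.asIdeal.mul_mem_right _ (hin a)) (Q.asIdeal.mul_mem_left _ (hin b))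
  have h3 := val_lt Q h2
  rw [← h1, map_mul, map_mul, val_one Q hb, val_one Q hsb, mul_one, mul_one] at h3
  exact h3

/-- comparison of the valuation with the norm of `Om`. -/
lemma le_of_norm_le (Q : HeightOneSpectrum (𝓞 L)) (φ : L →+* Om)
    (hφ : ∀ x : 𝓞 L, x ∈ Q.asIdeal ↔ ‖φ (x : L)‖ < 1) (z : L) (hz : ‖φ z‖ ≤ 1) :
    Q.valuation L z ≤ 1 := by
  by_contra hcon
  push Not at hcon
  have hz0 : z ≠ 0 := by
    rintro rfl
    rw [map_zero] at hcon
    exact absurd hcon (by simp)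
  have h1 : Q.valuation L z⁻¹ < 1 := by
    rw [map_inv₀]
    exact inv_lt_one_of_one_lt₀ hcon
  obtain ⟨a, b, hb, hab⟩ := lz Q z⁻¹ h1.le
  have ha : a ∈ Q.asIdeal := by
    rw [← Q.valuation_lt_one_iff_mem (K := L)]
    change Q.valuation L (a : L) < 1
    rw [← hab, map_mul, val_one Q hb, mul_one]
    exact h1
  have h2 := (hφ a).1 ha
  have h3 : ¬ ‖φ (b : L)‖ < 1 := fun h => hb ((hφ b).2 h)
  have h4 : (b : L) = z * a := by
    rw [← hab]
    field_simp
  apply h3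
  rw [h4, map_mul, norm_mul]
  calc ‖φ z‖ * ‖φ (a : L)‖ ≤ 1 * ‖φ (a : L)‖ := mul_le_mul_of_nonneg_right hz (norm_nonneg _)
    _ < 1 := by rwa [one_mul]

lemma norm_conj {F : Type} [Field F] [NumberField F] [Algebra F L] (Q : HeightOneSpectrum (𝓞 L))
    (σ : L ≃ₐ[F] L)
    (hin : ∀ y : 𝓞 L, σ • y - y ∈ Q.asIdeal) (φ : L →+* Om)
    (hφ : ∀ x : 𝓞 L, x ∈ Q.asIdeal ↔ ‖φ (x : L)‖ < 1) (z : L) (hz : ‖φ z‖ ≤ 1) :
    ‖φ (σ z)‖ ≤ 1 := by
  obtain ⟨a, b, hb, hab⟩ := lz Q z (le_of_norm_le Q φ hφ z hz)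
  have hsb : σ • b ∉ Q.asIdeal := by
    intro h1
    apply hb
    have h2 := Q.asIdeal.sub_mem h1 (hin b)
    rwa [sub_sub_cancel] at h2
  have h1 : σ z * σ (b : L) = σ (a : L) := by rw [← map_mul, hab]
  have h2 : ‖φ (σ (a : L))‖ ≤ 1 := norm_embedding_le_one φ (σ • a)
  have h3 : 1 ≤ ‖φ (σ (b : L))‖ := not_lt.1 fun h => hsb ((hφ (σ • b)).2 h)
  rw [← h1, map_mul, norm_mul] at h2
  by_contra hcon
  push Not at hcon
  have h4 : (1 : ℝ) < ‖φ (σ z)‖ * ‖φ (σ (b : L))‖ := by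
    calc (1 : ℝ) < ‖φ (σ z)‖ := hcon
      _ = ‖φ (σ z)‖ * 1 := (mul_one _).symm
      _ ≤ ‖φ (σ z)‖ * ‖φ (σ (b : L))‖ := mul_le_mul_of_nonneg_left h3 (norm_nonneg _)
  exact absurd h2 (not_le.2 h4)

end val

section unram

variable {k F L : Type} [Field k] [NumberField k] [Field F] [NumberField F] [Field L]
  [NumberField L] [Algebra k F] [Algebra F L] [Algebra k L] [IsScalarTower k F L]

/-- the prime below and the valuations -/
lemma below (Q : HeightOneSpectrum (𝓞 L)) : ∃ q : HeightOneSpectrum (𝓞 k),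
    (∀ x : 𝓞 k, x ∈ q.asIdeal ↔ algebraMap (𝓞 k) (𝓞 L) x ∈ Q.asIdeal) ∧
    ∃ e : ℕ, ∀ x : k, Q.valuation L (algebraMap k L x) = q.valuation k x ^ e := by
  have hne : Q.asIdeal.under (𝓞 k) ≠ ⊥ := by
    intro h
    exact Q.ne_bot (Ideal.eq_bot_of_comap_eq_bot h)
  obtain ⟨q, hq⟩ : ∃ q : HeightOneSpectrum (𝓞 k), q.asIdeal = Q.asIdeal.under (𝓞 k) :=
    ⟨⟨Q.asIdeal.under (𝓞 k), inferInstance, hne⟩, rfl⟩
  have : Q.asIdeal.LiesOver q.asIdeal := ⟨hq⟩
  refine ⟨q, fun x => ?_, q.asIdeal.ramificationIdx' Q.asIdeal, fun x => ?_⟩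
  · rw [hq]
    exact Ideal.mem_comap
  · exact (HeightOneSpectrum.valuation_liesOver L q Q x).symm

lemma cube_le {a b : ℤᵐ⁰} (ha : a ≤ 1) (hb : b ≤ 1) {x : ℤᵐ⁰} (h : x ^ 3 ≤ max (a * x) b) :
    x ≤ 1 := by
  by_contra hcon
  push Not at hcon
  have h1 : max (a * x) b ≤ x :=
    max_le (mul_le_of_le_one_left' ha) (hb.trans hcon.le)
  have h2 : x < x ^ 3 := by
    have h3 : 1 < x ^ 2 := one_lt_pow₀ hcon two_ne_zero
    have h4 : x * 1 < x * x ^ 2 := by
      exact mul_lt_mul_of_pos_left h3 (zero_lt_one.trans hcon)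
    calc x = x * 1 := (mul_one x).symm
      _ < x * x ^ 2 := h4
      _ = x ^ 3 := (pow_succ' x 2).symm
  exact absurd (h.trans h1) (not_le.2 h2)

/-- the case of primes not above 3 -/
lemma away (Q : HeightOneSpectrum (𝓞 L)) (h3Q : (3 : 𝓞 L) ∉ Q.asIdeal) {t : k}
    (hval : ∀ q : HeightOneSpectrum (𝓞 k), (3 : 𝓞 k) ∉ q.asIdeal →
      q.valuation k t ≤ 1 ∨ ∃ x : ℤᵐ⁰, q.valuation k t = x ^ 3)
    (σ : L ≃ₐ[F] L) (hin : ∀ y : 𝓞 L, σ • y - y ∈ Q.asIdeal) {θ : L}
    (v1 : θ + σ θ + σ (σ θ) = 0) (v2 : θ * σ θ + σ θ * σ (σ θ) + σ (σ θ) * θ = -3)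
    (v3 : θ * σ θ * σ (σ θ) = algebraMap k L t) : False := by
  obtain ⟨q, hq, e, he⟩ := below (k := k) Q
  have h3q : (3 : 𝓞 k) ∉ q.asIdeal := by
    intro h
    apply h3Q
    have h1 := (hq 3).1 h
    rwa [map_ofNat] at h1
  have hV3 : Q.valuation L 3 = 1 := by
    have h1 := val_one Q h3Q
    exact_mod_cast h1
  -- the scaling factor
  obtain ⟨dl, hdl0, hdl1, hcase⟩ : ∃ dl : k, dl ≠ 0 ∧ 1 ≤ q.valuation k dl ∧
      ((dl = 1 ∧ q.valuation k t ≤ 1) ∨ q.valuation k t = q.valuation k dl ^ 3) := by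
    rcases hval q h3q with h | ⟨x, hx⟩
    · exact ⟨1, one_ne_zero, by rw [map_one], Or.inl ⟨rfl, h⟩⟩
    · by_cases hle : q.valuation k t ≤ 1
      · exact ⟨1, one_ne_zero, by rw [map_one], Or.inl ⟨rfl, hle⟩⟩
      · push Not at hle
        obtain ⟨dl, hdl⟩ := q.valuation_surjective k x
        have hx1 : 1 < x := by
          by_contra hcon
          push Not at hcon
          rw [hx] at hle
          exact absurd (pow_le_one' hcon 3) (not_le.2 hle)
        refine ⟨dl, ?_, ?_, Or.inr ?_⟩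
        · rintro rfl
          rw [map_zero] at hdl
          rw [← hdl] at hx1
          exact absurd hx1 (by simp)
        · rw [hdl]
          exact hx1.le
        · rw [hdl, hx]
  set D : L := algebraMap k L dl with hD
  have hD0 : D ≠ 0 := by
    rw [hD]
    exact (map_ne_zero_iff _ (algebraMap k L).injective).2 hdl0
  have hσD : σ D = D := by
    rw [hD, IsScalarTower.algebraMap_apply k F L]
    exact σ.commutes _
  have hVD : Q.valuation L D = q.valuation k dl ^ e := he dl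
  have hVD1 : 1 ≤ Q.valuation L D := by
    rw [hVD]
    exact one_le_pow_of_one_le' hdl1 e
  have hVDi : Q.valuation L D⁻¹ ≤ 1 := by
    rw [map_inv₀]
    exact inv_le_one_of_one_le₀ hVD1
  set A : L := θ * D⁻¹ with hA
  set B : L := 3 * D⁻¹ ^ 2 with hB
  set C' : L := algebraMap k L t * D⁻¹ ^ 3 with hC
  have hA1 : σ A = σ θ * D⁻¹ := by rw [hA, map_mul, map_inv₀, hσD]
  have hA2 : σ (σ A) = σ (σ θ) * D⁻¹ := by rw [hA1, map_mul, map_inv₀, hσD]
  have w1 : A + σ A + σ (σ A) = 0 := by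
    rw [hA2, hA1, hA]
    linear_combination D⁻¹ * v1
  have w2 : A * σ A + σ A * σ (σ A) + σ (σ A) * A = -B := by
    rw [hA2, hA1, hA, hB]
    linear_combination D⁻¹ ^ 2 * v2
  have w3 : A * σ A * σ (σ A) = C' := by
    rw [hA2, hA1, hA, hC]
    linear_combination D⁻¹ ^ 3 * v3
  have w4 : A ^ 3 = B * A + C' := by
    have e1 : σ (σ A) = -A - σ A := by linear_combination w1
    rw [e1] at w2 w3
    linear_combination (-A) * w2 + w3
  have hVB : Q.valuation L B ≤ 1 := by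
    rw [hB, map_mul, map_pow, hV3, one_mul]
    exact pow_le_one' hVDi 2
  have hVC : Q.valuation L C' ≤ 1 ∧ (dl ≠ 1 ∨ ¬ q.valuation k t ≤ 1 → Q.valuation L C' = 1) := by
    have h1 : Q.valuation L C' = q.valuation k t ^ e * (Q.valuation L D)⁻¹ ^ 3 := by
      rw [hC, map_mul, map_pow, map_inv₀, he]
    rcases hcase with ⟨hd, hle⟩ | hc
    · refine ⟨?_, ?_⟩
      · rw [h1, ← map_inv₀]
        exact mul_le_one' (pow_le_one' hle e) (pow_le_one' hVDi 3)
      · rintro (h | h)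
        · exact absurd hd h
        · exact absurd hle h
    · have h2 : Q.valuation L C' = 1 := by
        rw [h1, hc, hVD, ← pow_mul, inv_pow, ← pow_mul, mul_comm 3 e]
        apply mul_inv_cancel₀
        apply pow_ne_zero
        exact (Valuation.ne_zero_iff _).2 hdl0
      exact ⟨h2.le, fun _ => h2⟩
  have hVA : Q.valuation L A ≤ 1 := by
    apply cube_le hVB hVC.1
    rw [← map_pow, w4, ← map_mul]
    exact Valuation.map_add _ _ _
  have hd1 : Q.valuation L (σ A - A) < 1 := val_sub Q σ hin A hVA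
  have hVA1 : Q.valuation L (σ A) ≤ 1 := by
    have h1 : σ A = (σ A - A) + A := by ring
    rw [h1]
    exact (Valuation.map_add _ _ _).trans (max_le hd1.le hVA)
  have hd2 : Q.valuation L (σ (σ A) - σ A) < 1 := val_sub Q σ hin (σ A) hVA1
  have hVA2 : Q.valuation L (σ (σ A)) ≤ 1 := by
    have h1 : σ (σ A) = (σ (σ A) - σ A) + σ A := by ring
    rw [h1]
    exact (Valuation.map_add _ _ _).trans (max_le hd2.le hVA1)
  have hV3A : Q.valuation L A < 1 := by
    have h1 : 3 * A = -((σ A - A) + ((σ (σ A) - σ A) + (σ A - A))) := by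
      linear_combination w1
    have h2 : Q.valuation L (3 * A) < 1 := by
      rw [h1, Valuation.map_neg]
      exact Valuation.map_add_lt _ hd1 (Valuation.map_add_lt _ hd2 hd1)
    rwa [map_mul, hV3, one_mul] at h2
  have hVB1 : Q.valuation L B < 1 := by
    have h1 : B = -(A * σ A + σ A * σ (σ A) + σ (σ A) * A) := by rw [w2, neg_neg]
    have hsA : Q.valuation L (σ A) < 1 := by
      have h1 : σ A = (σ A - A) + A := by ring
      rw [h1]
      exact Valuation.map_add_lt _ hd1 hV3A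
    rw [h1, Valuation.map_neg]
    refine Valuation.map_add_lt _ (Valuation.map_add_lt _ ?_ ?_) ?_
    · rw [map_mul]
      exact mul_lt_one_of_lt_of_le hV3A hVA1
    · rw [map_mul]
      exact mul_lt_one_of_lt_of_le hsA hVA2
    · rw [map_mul, mul_comm]
      exact mul_lt_one_of_lt_of_le hV3A hVA2
  have hVC1 : Q.valuation L C' < 1 := by
    rw [← w3, map_mul, map_mul]
    exact mul_lt_one_of_lt_of_le (mul_lt_one_of_lt_of_le hV3A hVA1) hVA2
  by_cases hd : dl = 1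
  · have h1 : Q.valuation L B = 1 := by
      rw [hB, hD, hd, map_one, inv_one, one_pow, mul_one, hV3]
    rw [h1] at hVB1
    exact lt_irrefl _ hVB1
  · have h1 := hVC.2 (Or.inl hd)
    rw [h1] at hVC1
    exact lt_irrefl _ hVC1

/-- the case of primes above 3 -/
lemma above (hapx : ApxStmt) (Q : HeightOneSpectrum (𝓞 L)) (φ : L →+* Om)
    (hφ : ∀ x : 𝓞 L, x ∈ Q.asIdeal ↔ ‖φ (x : L)‖ < 1) {t : k}
    (hloc : ∀ ψ : k →+* Om, ∃ x : Om, InLoc ψ x ∧ x ^ 3 - 3 * x = ψ t)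
    (σ : L ≃ₐ[F] L) (hin : ∀ y : 𝓞 L, σ • y - y ∈ Q.asIdeal) {θ : L}
    (h01 : θ ≠ σ θ)
    (v1 : θ + σ θ + σ (σ θ) = 0) (v2 : θ * σ θ + σ θ * σ (σ θ) + σ (σ θ) * θ = -3)
    (v3 : θ * σ θ * σ (σ θ) = algebraMap k L t) : False := by
  obtain ⟨x, hx, hxt⟩ := hloc (φ.comp (algebraMap k L))
  -- one of the conjugates is local
  have key : ∀ θ' : L, θ' ≠ σ θ' → φ θ' = x → False := by
    intro θ' hne hθ'
    have hn : ∀ n : ℕ, ‖φ (σ θ') - φ θ'‖ ≤ (3 : ℝ)⁻¹ ^ n := by
      intro n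
      obtain ⟨y, hy⟩ := hapx k (φ.comp (algebraMap k L)) x hx n
      set z : L := (algebraMap k L y - θ') / 3 ^ n with hz
      have hn3 : ‖(3 : Om)‖ = 3⁻¹ := by
        have h1 : ‖(3 : Om)‖ = ‖(3 : ℚ_[3])‖ := by
          have h2 : (3 : Om) = algebraMap ℚ_[3] Om 3 := by rw [map_ofNat]
          rw [h2]
          exact PadicAlgCl.norm_extends 3 3
        rw [h1]
        have := Padic.norm_p (p := 3)
        exact_mod_cast this
      have hpow : ‖φ ((3 : L) ^ n)‖ = (3 : ℝ)⁻¹ ^ n := by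
        rw [map_pow, map_ofNat, norm_pow, hn3]
      have hpos : (0 : ℝ) < (3 : ℝ)⁻¹ ^ n := by positivity
      have h30 : (3 : L) ^ n ≠ 0 := pow_ne_zero _ (by norm_num)
      have hz1 : ‖φ z‖ ≤ 1 := by
        rw [hz, map_div₀, norm_div, hpow, div_le_one hpos, map_sub, hθ']
        exact hy
      have hz2 := norm_conj Q σ hin φ hφ z hz1
      have hσz : σ z = (algebraMap k L y - σ θ') / 3 ^ n := by
        rw [hz, map_div₀, map_sub, map_pow, map_ofNat, IsScalarTower.algebraMap_apply k F L,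
          σ.commutes]
      rw [hσz, map_div₀, norm_div, hpow, div_le_one hpos, map_sub] at hz2
      have h4 : φ (σ θ') - φ θ' = (φ (algebraMap k L y) - x) + -(φ (algebraMap k L y) - φ (σ θ')) := by
        rw [hθ']
        ring
      rw [h4]
      refine (IsUltrametricDist.norm_add_le_max _ _).trans (max_le hy ?_)
      rw [norm_neg]
      exact hz2
    have h0 : ‖φ (σ θ') - φ θ'‖ ≤ 0 := by
      refine ge_of_tendsto' (tendsto_pow_atTop_nhds_zero_of_lt_one (by norm_num)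
        (by norm_num : (3 : ℝ)⁻¹ < 1)) hn
    have h1 : φ (σ θ') = φ θ' := sub_eq_zero.1 (norm_le_zero_iff.1 h0)
    exact hne (φ.injective h1).symm
  have hprod : (x - φ θ) * (x - φ (σ θ)) * (x - φ (σ (σ θ))) = 0 := by
    have e1 := congrArg φ v1
    have e2 := congrArg φ v2
    have e3 := congrArg φ v3
    simp only [map_add, map_mul, map_neg, map_ofNat, map_zero] at e1 e2 e3
    have e4 : φ (algebraMap k L t) = x ^ 3 - 3 * x := hxt.symm
    rw [e4] at e3
    linear_combination (-x ^ 2) * e1 + x * e2 - e3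
  have h12 : σ θ ≠ σ (σ θ) := fun h => h01 (σ.injective h)
  rcases mul_eq_zero.1 hprod with h | h
  · rcases mul_eq_zero.1 h with h | h
    · exact key θ h01 (sub_eq_zero.1 h).symm
    · exact key (σ θ) h12 (sub_eq_zero.1 h).symm
  · exact key (σ (σ θ)) (fun h => h12 (σ.injective h)) (sub_eq_zero.1 h).symm

lemma unram (hapx : ApxStmt) (hphi : PhiStmt) [IsGalois F L] (hF : finrank k F = 2)
    (h3 : finrank F L = 3) {t : k}
    (hno : ∀ x : k, x ^ 3 - 3 * x - t ≠ 0)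
    (hval : ∀ q : HeightOneSpectrum (𝓞 k), (3 : 𝓞 k) ∉ q.asIdeal →
      q.valuation k t ≤ 1 ∨ ∃ x : ℤᵐ⁰, q.valuation k t = x ^ 3)
    (hloc : ∀ ψ : k →+* Om, ∃ x : Om, InLoc ψ x ∧ x ^ 3 - 3 * x = ψ t) {θ : L}
    (hθ : θ ^ 3 - 3 * θ - algebraMap k L t = 0)
    (P : Ideal (𝓞 L)) [hP : P.IsPrime] (hP0 : P ≠ ⊥) : Algebra.IsUnramifiedAt (𝓞 F) P := by
  have hcard : Nat.card (L ≃ₐ[F] L) = 3 := by rw [IsGalois.card_aut_eq_finrank, h3]
  rw [← Ideal.ramificationIdx_eq_one_iff,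
    ← Ideal.ramificationIdxIn_eq_ramificationIdx (P.under (𝓞 F)) P (L ≃ₐ[F] L),
    ← Ideal.card_inertia_eq_ramificationIdxIn (G := L ≃ₐ[F] L) (P.under (𝓞 F)) P]
  by_contra hne
  have htop : P.inertia (L ≃ₐ[F] L) = ⊤ := by
    apply Subgroup.eq_top_of_card_eq
    have h4 := Subgroup.card_subgroup_dvd_card (P.inertia (L ≃ₐ[F] L))
    rw [hcard] at h4
    rw [hcard]
    exact ((Nat.dvd_prime Nat.prime_three).1 h4).resolve_left hne
  have hin : ∀ (σ : L ≃ₐ[F] L) (y : 𝓞 L), σ • y - y ∈ P := by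
    intro σ y
    have : σ ∈ P.inertia (L ≃ₐ[F] L) := by rw [htop]; trivial
    exact this y
  have hθF : ∀ y : F, algebraMap F L y ≠ θ := by
    intro y hy
    apply gq_noroot hF hno y
    apply (algebraMap F L).injective
    simp only [map_sub, map_mul, map_pow, map_ofNat, map_zero, hy]
    rw [← IsScalarTower.algebraMap_apply k F L]
    exact hθ
  obtain ⟨σ, hσ⟩ : ∃ σ : L ≃ₐ[F] L, σ θ ≠ θ := by
    by_contra hcon
    push Not at hcon
    obtain ⟨y, hy⟩ := (IsGalois.mem_bot_iff_fixed θ).2 hcon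
    exact hθF y hy
  have hσ3 : σ ^ 3 = 1 := by
    rw [← hcard]
    exact pow_card_eq_one'
  have hσ3' : σ (σ (σ θ)) = θ := by
    have := congrArg (fun f : L ≃ₐ[F] L => f θ) hσ3
    simpa [pow_succ] using this
  have hσt : σ (algebraMap k L t) = algebraMap k L t := by
    rw [IsScalarTower.algebraMap_apply k F L]
    exact σ.commutes _
  have hgal : ∀ y : L, (1 : L) * y ^ 3 + 3 * 0 * y ^ 2 + 3 * (-1) * y + (-algebraMap k L t) = 0 →
      (1 : L) * (σ y) ^ 3 + 3 * 0 * (σ y) ^ 2 + 3 * (-1) * (σ y) + (-algebraMap k L t) = 0 := by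
    intro y hy
    have := congrArg σ hy
    simp only [map_add, map_mul, map_pow, map_ofNat, map_zero, map_neg, map_one, hσt] at this
    exact this
  have hx : (1 : L) * θ ^ 3 + 3 * 0 * θ ^ 2 + 3 * (-1) * θ + (-algebraMap k L t) = 0 := by
    linear_combination hθ
  have h01 : θ ≠ σ θ := fun h => hσ h.symm
  have h12 : σ θ ≠ σ (σ θ) := fun h => h01 (σ.injective h)
  have h20 : σ (σ θ) ≠ θ := by
    intro h
    apply h01
    have := congrArg σ h
    rw [hσ3'] at this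
    exact this
  obtain ⟨v1, v2⟩ := Leo3.H76.vieta h01 h12 h20 hx (hgal _ hx) (hgal _ (hgal _ hx))
  have v1' : θ + σ θ + σ (σ θ) = 0 := by linear_combination v1
  have v2' : θ * σ θ + σ θ * σ (σ θ) + σ (σ θ) * θ = -3 := by linear_combination v2
  have v3 : θ * σ θ * σ (σ θ) = algebraMap k L t := by
    have e1 : σ (σ θ) = -θ - σ θ := by linear_combination v1
    rw [e1] at v2 ⊢
    linear_combination θ * v2 + hθ
  obtain ⟨Q, hQ⟩ : ∃ Q : HeightOneSpectrum (𝓞 L), Q.asIdeal = P := ⟨⟨P, hP, hP0⟩, rfl⟩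
  have hinQ : ∀ y : 𝓞 L, σ • y - y ∈ Q.asIdeal := by
    intro y
    rw [hQ]
    exact hin σ y
  by_cases h3P : (3 : 𝓞 L) ∈ P
  · obtain ⟨φ, hφ⟩ := hphi L P h3P
    rw [← hQ] at hφ
    exact above hapx Q φ hφ hloc σ hinQ h01 v1' v2' v3
  · rw [← hQ] at h3P
    exact away Q h3P hval σ hinQ v1' v2' v3

end unram

theorem unr (hapx : ApxStmt) (hphi : PhiStmt) : UnrStmt := by
  intro k F _ _ _ _ _ m s t₀ s₀ hF hs hbad
  have hirr := gq_irr (gq_noroot hF hbad.noroot)
  obtain ⟨L, _, _, θ, hθ, hdeg, htop⟩ := exists_root_field F (gq F (algebraMap k F t₀)) hirr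
  rw [gq_deg] at hdeg
  rw [aeval_def, ← eval_map, gq_map, gq_eval] at hθ
  have : CharZero L := charZero_of_injective_algebraMap (algebraMap F L).injective
  have : Module.Finite F L := Module.finite_of_finrank_pos (by omega)
  have : FiniteDimensional ℚ L := Module.Finite.trans F L
  have : NumberField L := ⟨⟩
  let _ : Algebra k L := ((algebraMap F L).comp (algebraMap k F)).toAlgebra
  have : IsScalarTower k F L := IsScalarTower.of_algebraMap_eq fun x => rfl
  rw [← IsScalarTower.algebraMap_apply k F L] at hθ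
  -- the square root of the discriminant
  obtain ⟨T, hT⟩ : ∃ T : L, T = algebraMap k L t₀ := ⟨_, rfl⟩
  obtain ⟨S, hS⟩ : ∃ S : L, S = algebraMap k L s₀ := ⟨_, rfl⟩
  obtain ⟨M, hM⟩ : ∃ M : L, M = algebraMap k L (m : k) := ⟨_, rfl⟩
  obtain ⟨σ, hσ⟩ : ∃ σ : L, σ = algebraMap F L s := ⟨_, rfl⟩
  have hθT : θ ^ 3 - 3 * θ - T = 0 := by rw [hT]; exact hθ
  have h1 : θ ^ 2 - 1 ≠ 0 := by
    intro h
    apply hbad.noroot (-t₀ / 2)
    have h2 : T = -2 * θ := by linear_combination (-1 : L) * hθT + θ * h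
    apply (algebraMap k L).injective
    simp only [map_sub, map_mul, map_pow, map_div₀, map_neg, map_ofNat, map_zero]
    rw [← hT, h2]
    linear_combination θ * h
  have hσ2 : σ ^ 2 = -M := by
    rw [hσ, ← map_pow, hs, map_neg, ← IsScalarTower.algebraMap_apply k F L, hM]
  have hdL : T ^ 2 - 4 = 3 * M * S ^ 2 := by
    have h2 := congrArg (algebraMap k L) hbad.disc
    simp only [map_sub, map_mul, map_pow, map_ofNat] at h2
    rw [hT, hS, hM]
    exact h2
  obtain ⟨δ, hδ⟩ : ∃ δ : L, δ = 3 * S * σ / (θ ^ 2 - 1) := ⟨_, rfl⟩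
  have hδ2 : δ ^ 2 = 12 - 3 * θ ^ 2 := by
    rw [hδ, div_pow, div_eq_iff (pow_ne_zero 2 h1), mul_pow, mul_pow, hσ2]
    have ht : T = θ ^ 3 - 3 * θ := by linear_combination -hθT
    rw [ht] at hdL
    linear_combination (3 : L) * hdL
  have hgal : IsGalois F L := gq_galois (t := algebraMap k F t₀) hδ2
    (by rw [← IsScalarTower.algebraMap_apply k F L]; exact hθ) htop
  refine ⟨L, inferInstance, inferInstance, inferInstance, hgal, hdeg, ?_⟩
  intro P hP hP0
  exact unram hapx hphi hF hdeg hbad.noroot hbad.val hbad.loc hθ P hP0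

end Pool.Agent.LeoK.H67
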